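import Pool.Agent.R432.JG.One

/-!
# Order and rank of a curve over many pure cubic fields: the binomial law and the law of large numbers

`E_D : y² + D y = x³` (`3`-isogenous to `x³ + y³ = D`).  `M` is any finite set of primes `≡ 1` modulo
`9`, `n = #M`.  `D` runs through the squarefree numbers, prime to `3` and to `M`, not `±1` modulo `9`,
divisible by exactly one prime `2` modulo `3`, without a splitting (a condition on cubic residues,
equivalent to: `E_D(ℚ)` is finite and `Ш(E_D / ℚ)[3^∞] = 0`; this is the proportion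
`c = ∏_{i ≥ 1} (1 - 3^{-i}) = 0.5601...` of all the `D`).  Consider the `n` pure cubic fields `ℚ(∛l)`,
`l ∈ M`.  A prime `l ∈ M` is called good for `D` if `D l` and `D l²` have no splitting either.  We prove:

* if `l` is good for `D` then over `K = ℚ(∛l)` the order of `L(E_D / K, s)` at `s = 1` and the rank of
  `E_D(K)` are both zero; so Q1 holds for `E_D / K`;
* in the limit the events (`l` is good for `D`), `l ∈ M`, are independent with probability `c²`: the
  number of the good primes has exactly the binomial law `B(n, c²)`, `0.3136 < c² < 1`;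
* for every `ε > 0` there is `n₀` such that for all `M` with at least `n₀` elements, for all but a
  proportion `ε` of the `D`, Q1 holds for `E_D` (with order and rank zero) over at least `(c² - ε) n` of
  the `n` fields `ℚ(∛l)`.

The proof.  The joint law of the `3 ^ n` residue matrices of the cubic twists of `E_D` (project JL, see
`MP_f50388_nt/FixedCubicRadicalFields`) and the descent and the `L`-functions over `ℚ(∛l)`.

Authors of the parts of project JL: helper962, helper159, helper152, helper916, helper258, helper432; the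
binomial law and the law of large numbers for independent events are from `R413/MQ/Bin.lean` (helper413).
-/

set_option autoImplicit false

namespace Pool.Agent.Results.MP_413b36_nt.ManyPureCubicFields

open NumberField IsDedekindDomain Filter Topology
open scoped Classical

/-- The curve `E_D : y² + D y = x³` over `L`. -/
def curve (D : ℕ) (L : Type) [Field L] : WeierstrassCurve L := ⟨0, 0, (D : L), 0, 0⟩

/-- `D` is squarefree, not divisible by `3`, not `±1` modulo `9`, not divisible by the elements of `M`,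
and divisible by exactly one prime that is `2` modulo `3`. -/
def InClass (M : Finset ℕ) (D : ℕ) : Prop :=
  Squarefree D ∧ ¬ 3 ∣ D ∧ D % 9 ≠ 1 ∧ D % 9 ≠ 8 ∧ (∀ l ∈ M, ¬ l ∣ D) ∧
    ∃ q : ℕ, q.Prime ∧ q % 3 = 2 ∧ q ∣ D ∧ ∀ p : ℕ, p.Prime → p ∣ D → p ≠ q → p % 3 = 1

/-- In every factorization of `D` in coprime factors `d₀ d₁ d₂` for which `d₁ d₂²`, `d₂ d₀²`,
`d₀ d₁²` are cubes modulo the primes dividing `d₀`, `d₁`, `d₂` respectively, two factors are `1`. -/
def HasNoSplitting (D : ℕ) : Prop :=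
  ∀ d : ZMod 3 → ℕ, ∏ c, d c = D → (∀ c c', c ≠ c' → Nat.Coprime (d c) (d c')) →
    (∀ (c : ZMod 3) (p : ℕ), p.Prime → p ∣ d c →
      ∃ x : ℤ, (p : ℤ) ∣ (d (c + 1) : ℤ) * (d (c + 2) : ℤ) ^ 2 - x ^ 3) →
    ∃ c, ∀ c', c' ≠ c → d c' = 1

section field

variable {K : Type} [Field K] [NumberField K]

/-- `V v` is, for every prime `v`, an integral model of `E` with discriminant minimal at `v`. -/
def MinimalModels (E : WeierstrassCurve K)
    (V : HeightOneSpectrum (𝓞 K) → WeierstrassCurve (𝓞 K)) : Prop :=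
  ∀ v : HeightOneSpectrum (𝓞 K),
    (∃ C : WeierstrassCurve.VariableChange K, C • (V v).map (algebraMap (𝓞 K) K) = E) ∧
    ∀ W : WeierstrassCurve (𝓞 K),
      (∃ C : WeierstrassCurve.VariableChange K, C • W.map (algebraMap (𝓞 K) K) = E) →
        ∀ n : ℕ, (V v).Δ ∈ v.asIdeal ^ n → W.Δ ∈ v.asIdeal ^ n

/-- The Euler factor at `v`, computed from the reduction of `V v`, where `a_v` is `q_v` minus the number
of affine points of the reduction. -/
noncomputable def factor (V : HeightOneSpectrum (𝓞 K) → WeierstrassCurve (𝓞 K)) (s : ℂ)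
    (v : HeightOneSpectrum (𝓞 K)) : ℂ :=
  (1 - ((Ideal.absNorm v.asIdeal : ℂ)
        - (Nat.card {xy : (𝓞 K ⧸ v.asIdeal) × (𝓞 K ⧸ v.asIdeal) //
            ((V v).map (Ideal.Quotient.mk v.asIdeal)).toAffine.Equation xy.1 xy.2} : ℂ))
        * (Ideal.absNorm v.asIdeal : ℂ) ^ (-s)
    + (if (V v).Δ ∈ v.asIdeal then 0 else (Ideal.absNorm v.asIdeal : ℂ))
        * (Ideal.absNorm v.asIdeal : ℂ) ^ (-2 * s))⁻¹

/-- `Λ` is a meromorphic continuation of `L(E/K, s)` to the set `U` of complex numbers. -/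
def IsContinuation (E : WeierstrassCurve K) (U : Set ℂ) (Λ : ℂ → ℂ) : Prop :=
  MeromorphicOn Λ U ∧
    ∃ V : HeightOneSpectrum (𝓞 K) → WeierstrassCurve (𝓞 K), MinimalModels E V ∧
      ∀ s : ℂ, 3 / 2 < s.re → HasProd (factor V s) (Λ s)

/-- The order at `s = 1` of `L(E/K, s)` and the rank of `E(K)` are both zero: `L(E/K, s)` has a
meromorphic continuation to `ℂ`; every meromorphic continuation to a connected set that contains the
half-plane `Re s > 3/2` and the point `1` has order zero at `s = 1`; and `E(K)` is finite. -/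
def OrderAndRankZero (E : WeierstrassCurve K) : Prop :=
  (∃ Λ, IsContinuation E Set.univ Λ) ∧
  (∀ (U : Set ℂ) (Λ : ℂ → ℂ), IsPreconnected U → (∀ s : ℂ, 3 / 2 < s.re → s ∈ U) → (1 : ℂ) ∈ U →
    IsContinuation E U Λ → meromorphicOrderAt Λ 1 = 0) ∧
  Finite E.toAffine.Point

end field

/-- Over every number field `K = ℚ(∛l)` the order at `s = 1` of `L(E_D / K, s)` and the rank of `E_D(K)`
are both zero; there is such a field, and all these fields have degree `3`. -/
def ZeroOver (l D : ℕ) : Prop :=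
  (∃ (K : Type) (_ : Field K) (_ : NumberField K) (θ : K), θ ^ 3 = (l : K) ∧
    ∀ F : Subfield K, θ ∈ F → F = ⊤) ∧
  ∀ (K : Type) [Field K] [NumberField K] (θ : K), θ ^ 3 = (l : K) →
    (∀ F : Subfield K, θ ∈ F → F = ⊤) →
      Module.finrank ℚ K = 3 ∧ OrderAndRankZero (curve D K)

/-- The number of the `l ∈ M` such that `D l` and `D l²` have no splitting. -/
noncomputable def good (M : Finset ℕ) (D : ℕ) : ℕ :=
  (M.filter fun l => HasNoSplitting (D * l) ∧ HasNoSplitting (D * l ^ 2)).card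

/-- The number of the `l ∈ M` such that `ZeroOver l D`. -/
noncomputable def zeros (M : Finset ℕ) (D : ℕ) : ℕ := (M.filter fun l => ZeroOver l D).card

/-- The number of the `D ≤ X` in the class, without a splitting, with the property `Q`. -/
noncomputable def num (M : Finset ℕ) (Q : ℕ → Prop) (X : ℕ) : ℕ :=
  ((Finset.Icc 1 X).filter fun D => InClass M D ∧ HasNoSplitting D ∧ Q D).card

/-- `c = ∏_{i ≥ 1} (1 - 3^{-i})`. -/
noncomputable def c : ℝ := ∏' i : ℕ, (1 - (1 / 3 : ℝ) ^ (i + 1))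

section proof

open Pool.Agent.H341R2.EC (IsModel IsMinAt red aff trc dlt)
open Pool.Agent.R433.MD (lf)
open Pool.Agent.H921R2.TatePole (nm two_le_nm)
open Pool.Agent.R432.JG (Cl cl_iff Fg cntM cntM_eq joint_one overOne)
open Pool.Agent.R413.MQ.Bin (cnt cnt_card cnt_congr N law_eq lln cnt_union)

section bridge
variable {K : Type} [Field K] [NumberField K]

theorem isModel_iff (E : WeierstrassCurve K) (W : WeierstrassCurve (𝓞 K)) :
    (∃ C : WeierstrassCurve.VariableChange K, C • W.map (algebraMap (𝓞 K) K) = E) ↔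
      IsModel E W := by
  constructor
  · rintro ⟨C, hC⟩
    exact ⟨C⁻¹, by rw [← hC, inv_smul_smul]⟩
  · rintro ⟨C, hC⟩
    exact ⟨C⁻¹, by rw [← hC, inv_smul_smul]⟩

theorem minimalModels_iff (E : WeierstrassCurve K)
    (V : HeightOneSpectrum (𝓞 K) → WeierstrassCurve (𝓞 K)) :
    MinimalModels E V ↔ ∀ v, IsMinAt E v (V v) := by
  unfold MinimalModels IsMinAt
  simp only [isModel_iff]

theorem factor_eq (V : HeightOneSpectrum (𝓞 K) → WeierstrassCurve (𝓞 K)) (s : ℂ)
    (v : HeightOneSpectrum (𝓞 K)) : factor V s v = (lf V s v)⁻¹ := by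
  unfold factor
  congr 1
  unfold lf trc dlt
  have h0 : ((nm v : ℕ) : ℂ) ≠ 0 := by
    have := two_le_nm v
    exact_mod_cast (by omega : nm v ≠ 0)
  have e1 : Nat.card {xy : (𝓞 K ⧸ v.asIdeal) × (𝓞 K ⧸ v.asIdeal) //
      ((V v).map (Ideal.Quotient.mk v.asIdeal)).toAffine.Equation xy.1 xy.2} =
      aff (red v (V v)) := by
    unfold aff red
    refine Nat.card_congr (Equiv.subtypeEquivRight fun xy => ?_)
    rw [WeierstrassCurve.Affine.equation_iff]
  have e2 : ((nm v : ℕ) : ℂ) ^ (1 - 2 * s) = ((nm v : ℕ) : ℂ) * ((nm v : ℕ) : ℂ) ^ (-2 * s) := by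
    rw [sub_eq_add_neg, Complex.cpow_add _ _ h0, Complex.cpow_one]
    congr 2
    ring
  have e3 : (Ideal.absNorm v.asIdeal : ℂ) = ((nm v : ℕ) : ℂ) := rfl
  rw [e1, e2, e3]
  push_cast
  split_ifs with h
  · ring
  · ring

end bridge

/-- the theorem for a good prime -/
theorem zero_over {M : Finset ℕ} {l D : ℕ} (hM : ∀ l ∈ M, l.Prime ∧ l % 9 = 1) (hl : l ∈ M)
    (hD : InClass M D) (h0 : HasNoSplitting D) (h1 : HasNoSplitting (D * l))
    (h2 : HasNoSplitting (D * l ^ 2)) : ZeroOver l D := by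
  have hC : Cl {l} D := by
    have h := (cl_iff M D).2 hD
    refine ⟨h.1, h.2.1, fun x hx => ?_⟩
    rw [Finset.mem_singleton] at hx
    rw [hx]
    exact h.2.2 l hl
  refine ⟨?_, fun K _ _ θ hθ hgen => ?_⟩
  · obtain ⟨K, i1, i2, r, hr, hg⟩ := Pool.Agent.R432.JG.exists_gen {l}
    refine ⟨K, i1, i2, r l, hr l (Finset.mem_singleton_self l), fun F hF => hg F fun x hx => ?_⟩
    rw [Finset.mem_singleton] at hx
    rw [hx]
    exact hF
  · obtain ⟨k1, k2, -, Λ, k3, k4, k5, k6⟩ :=
      overOne (hM l hl).1 (hM l hl).2 hC h0 h1 h2 θ hθ hgen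
    have hE : (curve D K).IsElliptic := Pool.Agent.R432.JG.ell hC.1.ne_zero
    obtain ⟨V0, hV0⟩ := Pool.Agent.R433.MD.exists_minimal (curve D K) hE
    have hprod : ∀ V : HeightOneSpectrum (𝓞 K) → WeierstrassCurve (𝓞 K),
        MinimalModels (curve D K) V → ∀ s : ℂ, 3 / 2 < s.re → HasProd (factor V s) (Λ s) :=
      fun V hV s hs =>
        (k6 V ((minimalModels_iff _ _).1 hV) s hs).congr_fun fun v => factor_eq V s v
    refine ⟨k1, ⟨Λ, k3, V0, (minimalModels_iff _ _).2 hV0,
      hprod V0 ((minimalModels_iff _ _).2 hV0)⟩, fun U Λ' hU hH h1U hΛ' => ?_, k2⟩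
    obtain ⟨h3, V, hV, h4⟩ := hΛ'
    rw [Pool.Agent.R333.BR.order_eq hU hH h1U h3 (g := Λ) (fun x _ => k3 x trivial)
      fun s hs => (h4 s hs).unique (hprod V hV s hs)]
    rw [k4.meromorphicOrderAt_eq, k4.analyticOrderAt_eq_zero.2 k5]
    rfl

theorem num_eq (M : Finset ℕ) (Q : ℕ → Prop) (X : ℕ) : num M Q X = cnt (Fg M) Q X := by
  unfold num
  symm
  refine cnt_card fun D => ?_
  rw [Finset.mem_filter]
  unfold Fg
  rw [show InClass M D ↔ Cl M D from (cl_iff M D).symm]
  exact and_congr_right fun _ => and_assoc.symm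

theorem hc : (0.56 : ℝ) < c ∧ c < 1 :=
  ⟨Pool.Agent.R432.JG.c3_gt, Pool.Agent.Y461.CX.t_C3.2.2.1⟩

end proof

open Pool.Agent.R432.JG (Cl cl_iff Fg cntM cntM_eq joint_one)
open Pool.Agent.R413.MQ.Bin (cnt cnt_card cnt_congr N law_eq lln cnt_union)

/-- **Main theorem.** -/
theorem result :
    (∀ M : Finset ℕ, (∀ l ∈ M, l.Prime ∧ l % 9 = 1) →
      (∃ c' : ℝ, 0 < c' ∧ ∃ X₀ : ℕ, ∀ X : ℕ, X₀ ≤ X →
        c' * X / Real.sqrt (Real.log X) ≤ (num M (fun _ => True) X : ℝ)) ∧
      (∀ D : ℕ, InClass M D → HasNoSplitting D → ∀ l ∈ M, HasNoSplitting (D * l) →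
        HasNoSplitting (D * l ^ 2) → ZeroOver l D) ∧
      (∀ k : ℕ, Tendsto (fun X : ℕ => (num M (fun D => good M D = k) X : ℝ) /
        (num M (fun _ => True) X : ℝ)) atTop
        (𝓝 ((M.card.choose k : ℝ) * (c ^ 2) ^ k * (1 - c ^ 2) ^ (M.card - k))))) ∧
    (∀ ε : ℝ, 0 < ε → ∃ n₀ : ℕ, ∀ M : Finset ℕ, (∀ l ∈ M, l.Prime ∧ l % 9 = 1) → n₀ ≤ M.card →
      ∃ X₀ : ℕ, ∀ X : ℕ, X₀ ≤ X →
        (1 - ε) * (num M (fun _ => True) X : ℝ) ≤
          (num M (fun D => (c ^ 2 - ε) * M.card ≤ (zeros M D : ℝ)) X : ℝ)) ∧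
    (0.56 : ℝ) < c ∧ c < 1 := by
  obtain ⟨hc1, hc2⟩ := hc
  have hc0 : (0 : ℝ) < c := by linarith
  have hp0 : (0 : ℝ) ≤ c ^ 2 := by positivity
  have hp1 : c ^ 2 ≤ 1 := pow_le_one₀ hc0.le hc2.le
  have hcard : ∀ M : Finset ℕ, (Finset.univ : Finset {l : ℕ // l ∈ M}).card = M.card := fun M => by
    rw [Finset.card_univ, Fintype.card_coe]
  have hg : ∀ (M : Finset ℕ) (D : ℕ), Fg M D → good M D =
      N (Finset.univ : Finset {l : ℕ // l ∈ M})
        (Pool.Agent.R432.JG.GU fun l : {l : ℕ // l ∈ M} => ({l.1} : Finset ℕ)) D := fun M D hD =>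
    cntM_eq hD.2
  have hgz : ∀ M : Finset ℕ, (∀ l ∈ M, l.Prime ∧ l % 9 = 1) → ∀ D, Fg M D →
      good M D ≤ zeros M D := by
    intro M hM D hD
    refine Finset.card_le_card fun l hl => ?_
    rw [Finset.mem_filter] at hl ⊢
    exact ⟨hl.1, zero_over hM hl.1 ((cl_iff M D).1 hD.1) hD.2 hl.2.1 hl.2.2⟩
  refine ⟨fun M hM => ⟨?_, fun D hD h0 l hl h1 h2 => zero_over hM hl hD h0 h1 h2, fun k => ?_⟩,
    fun ε hε => ?_, hc1, hc2⟩
  · -- the size of the family
    obtain ⟨c₀, hc₀, X₀, hlow⟩ := Pool.Agent.R432.JG.low hM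
    have h1 := Pool.Agent.R432.JG.law_cnt hM {0}
    rw [Finset.card_singleton, pow_one] at h1
    have e1 : ∀ X, cnt (Cl M) (fun D => ∀ i ∈ ({0} : Finset ({l : ℕ // l ∈ M} → ZMod 3)),
        Pool.Agent.Y703.CT.NoSplit (Pool.Agent.R432.JG.twN D M i)) X = num M (fun _ => True) X := by
      intro X
      rw [num_eq, Pool.Agent.R432.JG.cnt_Fg]
      refine cnt_congr (fun D _ => ?_) X
      simp only [Finset.mem_singleton, forall_eq]
      rw [Pool.Agent.R432.JG.twN_zero, and_iff_left trivial]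
    have hev := h1.eventually (lt_mem_nhds (show (0.56 : ℝ) < Pool.Agent.Y703.CX.c3 from hc1))
    obtain ⟨X₁, hX₁⟩ := Filter.eventually_atTop.1 (hev.and (Pool.Agent.R432.JG.ev_pos hM))
    refine ⟨0.56 * c₀, by positivity, max X₀ X₁, fun X hX => ?_⟩
    obtain ⟨h2, h3⟩ := hX₁ X ((le_max_right _ _).trans hX)
    have h4 := hlow X ((le_max_left _ _).trans hX)
    have e2 : (cnt (Cl M) (fun _ => True) X : ℝ) =
        (((Finset.Icc 1 X).filter fun D => Cl M D).card : ℝ) := by
      have : cnt (Cl M) (fun _ => True) X = ((Finset.Icc 1 X).filter fun D => Cl M D).card := by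
        refine cnt_card fun D => ?_
        rw [Finset.mem_filter, and_iff_left trivial]
      rw [this]
    rw [e1, e2, lt_div_iff₀ h3] at h2
    have h5 : 0.56 * c₀ * X / Real.sqrt (Real.log X) =
        0.56 * (c₀ * X / Real.sqrt (Real.log X)) := by ring
    rw [h5]
    linarith
  · have h := law_eq (joint_one hM) k
    rw [hcard] at h
    refine h.congr fun X => ?_
    have e := cnt_congr (Fam := Fg M) (Q := fun D => good M D = k)
      (R := fun D => N (Finset.univ : Finset {l : ℕ // l ∈ M})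
        (Pool.Agent.R432.JG.GU fun l : {l : ℕ // l ∈ M} => ({l.1} : Finset ℕ)) D = k)
      (fun D hD => by rw [hg M D hD]) X
    rw [num_eq, num_eq, e]
  · obtain ⟨n₀, hn₀⟩ := exists_nat_gt (2 * (c ^ 2 * (1 - c ^ 2)) / (ε ^ 3))
    refine ⟨n₀ + 1, fun M hM hn => ?_⟩
    have hTn : (n₀ : ℝ) < M.card := by exact_mod_cast (by omega : n₀ < M.card)
    have hT0 : (0 : ℝ) < M.card := by exact_mod_cast (by omega : 0 < M.card)
    have hne : (Finset.univ : Finset {l : ℕ // l ∈ M}).Nonempty := by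
      rw [← Finset.card_pos, hcard]
      omega
    obtain ⟨X₀, h⟩ := lln hne hp0 hp1 (joint_one hM) hε (show 0 < ε / 2 by linarith)
    refine ⟨X₀, fun X hX => ?_⟩
    have h1 := h X hX
    rw [hcard] at h1
    have h2 : c ^ 2 * (1 - c ^ 2) / (ε ^ 2 * M.card) ≤ ε / 2 := by
      have h3 := hn₀.trans hTn
      rw [div_lt_iff₀ (by positivity)] at h3
      rw [div_le_iff₀ (by positivity)]
      nlinarith
    have hA : (0 : ℝ) ≤ (cnt (Fg M) (fun _ => True) X : ℝ) := Nat.cast_nonneg _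
    have h4 := h1.trans (mul_le_mul_of_nonneg_right (b := c ^ 2 * (1 - c ^ 2) / (ε ^ 2 * M.card) + ε / 2)
      (c := ε) (by linarith) hA)
    have h5 := cnt_union (Fam := Fg M)
      (Q := fun D => ε ≤ |(N (Finset.univ : Finset {l : ℕ // l ∈ M})
        (Pool.Agent.R432.JG.GU fun l : {l : ℕ // l ∈ M} => ({l.1} : Finset ℕ)) D : ℝ) / M.card -
          c ^ 2|)
      (R := fun D => (c ^ 2 - ε) * M.card ≤ (zeros M D : ℝ)) (fun D hD => by
        by_cases h6 : ε ≤ |(N (Finset.univ : Finset {l : ℕ // l ∈ M})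
          (Pool.Agent.R432.JG.GU fun l : {l : ℕ // l ∈ M} => ({l.1} : Finset ℕ)) D : ℝ) / M.card -
            c ^ 2|
        · exact Or.inl h6
        · refine Or.inr ?_
          rw [not_le, ← hg M D hD] at h6
          have h7 := (abs_lt.1 h6).1
          have h8 : (c ^ 2 - ε) * M.card ≤ (good M D : ℝ) := by
            have h9 : c ^ 2 - ε ≤ (good M D : ℝ) / M.card := by linarith
            rwa [le_div_iff₀ hT0] at h9
          have h10 : (good M D : ℝ) ≤ zeros M D := by exact_mod_cast hgz M hM D hD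
          exact h8.trans h10) X
    have h6 : (cnt (Fg M) (fun _ => True) X : ℝ) ≤
        (cnt (Fg M) (fun D => ε ≤ |(N (Finset.univ : Finset {l : ℕ // l ∈ M})
        (Pool.Agent.R432.JG.GU fun l : {l : ℕ // l ∈ M} => ({l.1} : Finset ℕ)) D : ℝ) / M.card -
          c ^ 2|) X : ℝ) +
        (cnt (Fg M) (fun D => (c ^ 2 - ε) * M.card ≤ (zeros M D : ℝ)) X : ℝ) := by exact_mod_cast h5
    rw [num_eq, num_eq]
    linarith

end Pool.Agent.Results.MP_413b36_nt.ManyPureCubicFields
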