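import Pool.Agent.R333.BR.Ord
import Pool.Agent.R333.BR.Fam
import Pool.Agent.R433.MD.FuncEq

/-!
# The Birch–Swinnerton-Dyer conjecture modulo 2 over number fields of large degree

`E` is an elliptic curve over a number field `K`.  The congruence `ord_{s=1} L(E/K, s) ≡ rk E(K)`
modulo 2 descends to `K` from finitely many extensions `F_i / K` of degree divisible by `m` or by `n`,
if `gcd(m, n)` is odd, and from the intermediate fields `F` of a Galois extension `L / K` such that
`Gal(L/F)` is 2-hyperelementary.  So for every odd `n` the conjecture modulo 2 over the number fields of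
degree divisible by `n` (e.g. `n = 3 ^ 100`) implies the conjecture modulo 2 over all number fields.

Nothing is assumed about `E` or `K`.
-/

set_option autoImplicit false

namespace Pool.Agent.Results.MP_413b36_nt.OddDegreeDescent

open NumberField IsDedekindDomain

/-- `V v` is, for every prime `v`, an integral model of `E` with discriminant minimal at `v`. -/
def MinimalModels {K : Type} [Field K] [NumberField K] (E : WeierstrassCurve K)
    (V : HeightOneSpectrum (𝓞 K) → WeierstrassCurve (𝓞 K)) : Prop :=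
  ∀ v : HeightOneSpectrum (𝓞 K),
    (∃ C : WeierstrassCurve.VariableChange K, C • (V v).map (algebraMap (𝓞 K) K) = E) ∧
    ∀ W : WeierstrassCurve (𝓞 K),
      (∃ C : WeierstrassCurve.VariableChange K, C • W.map (algebraMap (𝓞 K) K) = E) →
        ∀ n : ℕ, (V v).Δ ∈ v.asIdeal ^ n → W.Δ ∈ v.asIdeal ^ n

open Classical in
/-- The Euler product of `L(E/K, s)` over all primes `v` of `K`, computed from the reductions of the
models `V v`: `a_v` is `q_v` minus the number of affine points of the reduction, at all primes. -/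
noncomputable def LSeries {K : Type} [Field K] [NumberField K]
    (V : HeightOneSpectrum (𝓞 K) → WeierstrassCurve (𝓞 K)) (s : ℂ) : ℂ :=
  ∏' v : HeightOneSpectrum (𝓞 K),
    (1 - ((Ideal.absNorm v.asIdeal : ℂ)
          - (Nat.card {xy : (𝓞 K ⧸ v.asIdeal) × (𝓞 K ⧸ v.asIdeal) //
              ((V v).map (Ideal.Quotient.mk v.asIdeal)).toAffine.Equation xy.1 xy.2} : ℂ))
          * (Ideal.absNorm v.asIdeal : ℂ) ^ (-s)
      + (if (V v).Δ ∈ v.asIdeal then 0 else (Ideal.absNorm v.asIdeal : ℂ))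
          * (Ideal.absNorm v.asIdeal : ℂ) ^ (-2 * s))⁻¹

/-- `Λ` is a meromorphic continuation of `L(E/K, s)` to the set `U` of complex numbers. -/
def IsContinuation {K : Type} [Field K] [NumberField K] (E : WeierstrassCurve K) (U : Set ℂ)
    (Λ : ℂ → ℂ) : Prop :=
  MeromorphicOn Λ U ∧
    ∃ V : HeightOneSpectrum (𝓞 K) → WeierstrassCurve (𝓞 K), MinimalModels E V ∧
      ∀ s : ℂ, 3 / 2 < s.re → Λ s = LSeries V s

/-- `U` is a connected set that contains the half-plane `Re s > 3/2` and the point `s = 1`. -/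
def Region (U : Set ℂ) : Prop :=
  IsPreconnected U ∧ (∀ s : ℂ, 3 / 2 < s.re → s ∈ U) ∧ (1 : ℂ) ∈ U

open Classical in
/-- The rank of the group `E(K)` is `r`. -/
def HasRank {K : Type} [Field K] (E : WeierstrassCurve K) (r : ℕ) : Prop :=
  Module.rank ℤ E.toAffine.Point = r

/-- `L(E/K, s)` has a meromorphic continuation to `U`, and the order of the continuation at `s = 1`
is `k`. -/
def HasOrder {K : Type} [Field K] [NumberField K] (E : WeierstrassCurve K) (U : Set ℂ) (k : ℤ) :
    Prop :=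
  (∃ Λ, IsContinuation E U Λ) ∧ ∀ Λ, IsContinuation E U Λ → meromorphicOrderAt Λ 1 = k

/-- The rank of `E(K)` is finite, `L(E/K, s)` has a meromorphic continuation to `U`, and the order of
the continuation at `s = 1` has the parity of the rank of `E(K)`. -/
def SameParity {K : Type} [Field K] [NumberField K] (E : WeierstrassCurve K) (U : Set ℂ) : Prop :=
  ∃ (r : ℕ) (o : ℤ), HasRank E r ∧ HasOrder E U o ∧ Even (o + r)

/-- The rank of `E(K)` is finite (Mordell-Weil), and `L(E/K, s)` has a meromorphic continuation to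
`U`. -/
def Continues {K : Type} [Field K] [NumberField K] (E : WeierstrassCurve K) (U : Set ℂ) : Prop :=
  (∃ r : ℕ, HasRank E r) ∧ ∃ Λ, IsContinuation E U Λ

/-- The subgroup `H` is 2-hyperelementary: it has a cyclic normal subgroup `C` of odd order such that
`H / C` is a 2-group. -/
def TwoHyperelementary {G : Type} [Group G] (H : Subgroup G) : Prop :=
  ∃ C : Subgroup G, C ≤ H ∧ IsCyclic C ∧ Odd (Nat.card C) ∧
    (∀ h ∈ H, ∀ c ∈ C, h * c * h⁻¹ ∈ C) ∧ ∀ h ∈ H, ∃ k : ℕ, h ^ 2 ^ k ∈ C

open Classical in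
/-- Q1: for every elliptic curve `E` over a number field `K` and every analytic continuation `f` of
`L(E/K, s)` to a connected open set that contains `1` and the half-plane `Re s > 3/2`, the order of
vanishing of `f` at `s = 1` and the rank of `E(K)` have the same parity. -/
def Q1 : Prop :=
  ∀ (K : Type) [Field K] [NumberField K] (E : WeierstrassCurve K), E.IsElliptic →
    ∀ V : HeightOneSpectrum (𝓞 K) → WeierstrassCurve (𝓞 K), MinimalModels E V →
      ∀ (U : Set ℂ) (f : ℂ → ℂ), IsOpen U → IsConnected U → (1 : ℂ) ∈ U →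
        {s : ℂ | 3 / 2 < s.re} ⊆ U → AnalyticOnNhd ℂ f U →
        (∀ s : ℂ, 3 / 2 < s.re → f s = LSeries V s) →
          Even (analyticOrderNatAt f 1 + Module.finrank ℤ E.toAffine.Point)

section Aux

open Pool.Agent.H341R2.EC Pool.Agent.R433.MD Pool.Agent.R333.BR
open Pool.Agent.H921R2.TatePole (nm two_le_nm)

section bridge
variable {K : Type} [Field K] [NumberField K]

theorem isModel_iff (E : WeierstrassCurve K) (W : WeierstrassCurve (𝓞 K)) :
    (∃ C : WeierstrassCurve.VariableChange K, C • W.map (algebraMap (𝓞 K) K) = E) ↔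
      IsModel E W := by
  constructor
  · rintro ⟨C, hC⟩
    exact ⟨C⁻¹, by rw [← hC, inv_smul_smul]⟩
  · rintro ⟨C, hC⟩
    exact ⟨C⁻¹, by rw [← hC, inv_smul_smul]⟩

theorem minimalModels_iff (E : WeierstrassCurve K)
    (V : HeightOneSpectrum (𝓞 K) → WeierstrassCurve (𝓞 K)) :
    MinimalModels E V ↔ ∀ v, IsMinAt E v (V v) := by
  unfold MinimalModels IsMinAt
  simp only [isModel_iff]

theorem lseries_eq (V : HeightOneSpectrum (𝓞 K) → WeierstrassCurve (𝓞 K)) (s : ℂ) :
    LSeries V s = LL V s := by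
  unfold LSeries LL
  refine tprod_congr fun v => ?_
  congr 1
  unfold lf trc dlt
  have h0 : ((nm v : ℕ) : ℂ) ≠ 0 := by
    have := two_le_nm v
    exact_mod_cast (by omega : nm v ≠ 0)
  have e1 : Nat.card {xy : (𝓞 K ⧸ v.asIdeal) × (𝓞 K ⧸ v.asIdeal) //
      ((V v).map (Ideal.Quotient.mk v.asIdeal)).toAffine.Equation xy.1 xy.2} =
      aff (red v (V v)) := by
    unfold aff red
    refine Nat.card_congr (Equiv.subtypeEquivRight fun xy => ?_)
    rw [WeierstrassCurve.Affine.equation_iff]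
  have e2 : ((nm v : ℕ) : ℂ) ^ (1 - 2 * s) = ((nm v : ℕ) : ℂ) * ((nm v : ℕ) : ℂ) ^ (-2 * s) := by
    rw [sub_eq_add_neg, Complex.cpow_add _ _ h0, Complex.cpow_one]
    congr 2
    ring
  have e3 : (Ideal.absNorm v.asIdeal : ℂ) = ((nm v : ℕ) : ℂ) := rfl
  rw [e1, e2, e3]
  push_cast
  split_ifs with h
  · ring
  · ring

theorem isContinuation_iff (E : WeierstrassCurve K) (U : Set ℂ) (Λ : ℂ → ℂ) :
    IsContinuation E U Λ ↔ MeromorphicOn Λ U ∧
      ∃ V : HeightOneSpectrum (𝓞 K) → WeierstrassCurve (𝓞 K), (∀ v, IsMinAt E v (V v)) ∧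
        ∀ s : ℂ, 3 / 2 < s.re → Λ s = LL V s := by
  unfold IsContinuation
  simp only [minimalModels_iff, lseries_eq]

theorem exists_order {E : WeierstrassCurve K} (hE : E.IsElliptic) {U : Set ℂ} (hU : Region U)
    (hc : ∃ Λ, IsContinuation E U Λ) : ∃ o : ℤ, HasOrder E U o := by
  obtain ⟨Λ, hΛ⟩ := hc
  obtain ⟨h1, V, hV, hL⟩ := (isContinuation_iff _ _ _).1 hΛ
  have h2 : meromorphicOrderAt Λ 1 ≠ ⊤ := order_ne_top hU.1 hU.2.1 hU.2.2 h1 fun s hs => by
    rw [hL s hs]
    exact LL_ne_zero hE hV hs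
  obtain ⟨o, ho⟩ := WithTop.ne_top_iff_exists.1 h2
  refine ⟨o, ⟨Λ, hΛ⟩, fun Λ' hΛ' => ?_⟩
  obtain ⟨h1', V', hV', hL'⟩ := (isContinuation_iff _ _ _).1 hΛ'
  rw [ho]
  refine order_eq hU.1 hU.2.1 hU.2.2 h1' h1 fun s hs => ?_
  rw [hL s hs, hL' s hs, LL_unique hE hV' hV]

end bridge

section rel
variable {K L : Type} [Field K] [NumberField K] [Field L] [NumberField L] [Algebra K L]
  [IsGalois K L] {ι : Type} [Fintype ι] [Nonempty ι] (Z : ι → Ext K)
  (f : ∀ i, (Z i).F →ₐ[K] L) (e : ι → ℤ) (m : ℕ)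

theorem ranks (h : ∀ g : Gal(L/K), ∑ i, e i * fx (f i).fieldRange.fixingSubgroup g = m)
    (E : WeierstrassCurve K) (rk : ι → ℕ)
    (hrk : ∀ i, HasRank (E.map (algebraMap K (Z i).F)) (rk i)) :
    ∃ rk0 : ℕ, HasRank E rk0 ∧ (m : ℤ) * rk0 = ∑ i, e i * rk i :=
  rank_rel E (fun i => (Z i).F) f e m h rk hrk

omit [Nonempty ι] in
theorem orders (hm : m ≠ 0)
    (h : ∀ g : Gal(L/K), ∑ i, e i * fx (f i).fieldRange.fixingSubgroup g = m)
    (E : WeierstrassCurve K) (hE : E.IsElliptic) {U : Set ℂ} (hU : Region U) (o : ι → ℤ)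
    (ho : ∀ i, HasOrder (E.map (algebraMap K (Z i).F)) U (o i)) (hc : ∃ Λ, IsContinuation E U Λ) :
    ∃ o0 : ℤ, HasOrder E U o0 ∧ (m : ℤ) * o0 = ∑ i, e i * o i := by
  have hm' : (m : ℤ) ≠ 0 := by exact_mod_cast hm
  choose hex hall using ho
  choose Λ hΛ using hex
  have hΛ' := fun i => (isContinuation_iff _ _ _).1 (hΛ i)
  choose VZ hVZ hL using fun i => (hΛ' i).2
  have key : ∀ Λ0, IsContinuation E U Λ0 → ∃ o0 : ℤ, meromorphicOrderAt Λ0 1 = o0 ∧
      (m : ℤ) * o0 = ∑ i, e i * o i := by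
    intro Λ0 h0
    obtain ⟨h1, V0, hV0, h2⟩ := (isContinuation_iff _ _ _).1 h0
    exact ord_rel hU.1 hU.2.1 hU.2.2 Z f e m h E hE V0 hV0 VZ hVZ h1 h2 (fun i => (hΛ' i).1) hL o
      fun i => hall i _ (hΛ i)
  obtain ⟨Λ0, hΛ0⟩ := hc
  obtain ⟨o0, h1, h2⟩ := key Λ0 hΛ0
  refine ⟨o0, ⟨⟨Λ0, hΛ0⟩, fun Λ1 hΛ1 => ?_⟩, h2⟩
  obtain ⟨o1, h3, h4⟩ := key Λ1 hΛ1
  rw [h3, mul_left_cancel₀ hm' (h4.trans h2.symm)]

theorem parity (hm : Odd m)
    (h : ∀ g : Gal(L/K), ∑ i, e i * fx (f i).fieldRange.fixingSubgroup g = m)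
    (E : WeierstrassCurve K) (hE : E.IsElliptic) {U : Set ℂ} (hU : Region U)
    (hc : ∀ i, Continues (E.map (algebraMap K (Z i).F)) U)
    (ho : ∀ i, Odd (e i) → SameParity (E.map (algebraMap K (Z i).F)) U)
    (hc0 : ∃ Λ, IsContinuation E U Λ) : SameParity E U := by
  have hm0 : m ≠ 0 := by
    rintro rfl
    exact absurd hm (by decide)
  choose r hr using fun i => (hc i).1
  choose o hor using fun i => exists_order (inferInstance :
    (E.map (algebraMap K (Z i).F)).IsElliptic) hU (hc i).2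
  obtain ⟨r0, h1, h2⟩ := ranks Z f e m h E r hr
  obtain ⟨o0, h3, h4⟩ := orders Z f e m hm0 h E hE hU o hor hc0
  refine ⟨r0, o0, h1, h3, ?_⟩
  have h5 : ∀ i, Even (e i * (o i + r i)) := by
    intro i
    rcases Int.even_or_odd (e i) with he | he
    · exact he.mul_right _
    · obtain ⟨r', o', hr', ho', hev⟩ := ho i he
      have e1 : r' = r i := by
        have h6 := (hr'.symm.trans (hr i) : (r' : Cardinal) = (r i : Cardinal))
        exact_mod_cast h6
      have e2 : o' = o i := by
        obtain ⟨Λ, hΛ⟩ := (hor i).1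
        have h6 := (ho'.2 Λ hΛ).symm.trans ((hor i).2 Λ hΛ)
        exact WithTop.coe_injective h6
      rw [e1, e2] at hev
      exact hev.mul_left _
  have h6 : (m : ℤ) * (o0 + r0) = ∑ i, e i * (o i + r i) := by
    rw [mul_add, h4, h2, ← Finset.sum_add_distrib]
    exact Finset.sum_congr rfl fun i _ => by ring
  have h7 : Even ((m : ℤ) * (o0 + r0)) := by
    rw [h6]
    exact Finset.even_sum _ fun i _ => h5 i
  have h8 : Odd (m : ℤ) := by exact_mod_cast hm
  rcases Int.even_mul.1 h7 with h9 | h9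
  · exact absurd h9 (Int.not_even_iff_odd.2 h8)
  · exact h9

end rel

theorem twoHyper_iff {G : Type} [Group G] (H : Subgroup G) : TwoHyperelementary H ↔ IsHyper 2 H := by
  unfold TwoHyperelementary IsHyper
  simp only [Nat.coprime_two_right]

/-- the hyperelementary case -/
theorem hyper (K L : Type) [Field K] [NumberField K] [Field L] [NumberField L] [Algebra K L]
    [IsGalois K L] (E : WeierstrassCurve K) (hE : E.IsElliptic) {U : Set ℂ} (hU : Region U)
    (hF : ∀ F : IntermediateField K L, TwoHyperelementary F.fixingSubgroup →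
      SameParity (E.map (algebraMap K F)) U) (hc : ∃ Λ, IsContinuation E U Λ) :
    SameParity E U := by
  classical
  obtain ⟨m, S, n, hm0, hmP, hS, hsum⟩ := gal_unit
    {F : IntermediateField K L | IsHyper 2 F.fixingSubgroup}
    (by
      intro F hF F' _
      have hle : (F ⊔ F').fixingSubgroup ≤ F.fixingSubgroup := by
        rw [IntermediateField.fixingSubgroup_sup]
        exact inf_le_left
      have hF' : IsHyper 2 F.fixingSubgroup := hF
      exact hF'.le hle)
    (by
      intro F hF σ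
      have e : (F.map (σ : L →ₐ[K] L)).fixingSubgroup =
          F.fixingSubgroup.map (MulAut.conj σ).toMonoidHom := IsGalois.map_fixingSubgroup F σ
      rw [Set.mem_ofPred_eq, e]
      have hF' : IsHyper 2 F.fixingSubgroup := hF
      exact hF'.conj σ) {2}
    (by
      intro g
      obtain ⟨H, hH, h⟩ := hyper_count Nat.prime_two g
      have e : (IntermediateField.fixedField H).fixingSubgroup = H :=
        IntermediateField.fixingSubgroup_fixedField _
      refine ⟨IntermediateField.fixedField H, ?_, ?_⟩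
      · rw [Set.mem_ofPred_eq, e]
        exact hH
      · have h1 := fx_eq_emb (IntermediateField.fixedField H) g
        rw [e] at h1
        intro h2
        rw [h1, h2] at h
        exact h (dvd_zero _))
    (by
      intro g p hp hpp
      obtain rfl : p = 2 := hp
      obtain ⟨H, hH, h⟩ := hyper_count Nat.prime_two g
      have e : (IntermediateField.fixedField H).fixingSubgroup = H :=
        IntermediateField.fixingSubgroup_fixedField _
      refine ⟨IntermediateField.fixedField H, ?_, ?_⟩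
      · rw [Set.mem_ofPred_eq, e]
        exact hH
      · have h1 := fx_eq_emb (IntermediateField.fixedField H) g
        rw [e] at h1
        rw [h1] at h
        exact_mod_cast h)
  have hodd : Odd m := by
    rw [← Nat.not_even_iff_odd, even_iff_two_dvd]
    exact hmP 2 rfl Nat.prime_two
  have hrel : ∀ g : Gal(L/K), ∑ i : S, n i.1 * fx (i.1.val).fieldRange.fixingSubgroup g = m := by
    intro g
    rw [← hsum g, ← Finset.sum_coe_sort S (fun F => n F * fx F.fixingSubgroup g)]
    refine Finset.sum_congr rfl fun i _ => ?_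
    rw [IntermediateField.fieldRange_val]
  have hne : Nonempty S := by
    by_contra h
    rw [not_nonempty_iff] at h
    have h1 := hrel 1
    rw [Finset.univ_eq_empty, Finset.sum_empty] at h1
    exact hm0 (by exact_mod_cast h1.symm)
  have hS' : ∀ i : S, SameParity (E.map (algebraMap K i.1)) U := fun i =>
    hF i.1 ((twoHyper_iff _).2 (hS i.1 i.2))
  refine parity (fun i : S => (⟨i.1⟩ : Ext K)) (fun i => i.1.val) (fun i => n i.1) m hodd hrel E hE
    hU (fun i => ?_) (fun i _ => hS' i) hc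
  obtain ⟨r, o, hr, ho, -⟩ := hS' i
  exact ⟨⟨r, hr⟩, ho.1⟩

theorem order_of {K : Type} [Field K] [NumberField K] {E : WeierstrassCurve K} {U : Set ℂ}
    (h : SameParity E U) {V : HeightOneSpectrum (𝓞 K) → WeierstrassCurve (𝓞 K)}
    (hV : MinimalModels E V) (h1 : (1 : ℂ) ∈ U) {f : ℂ → ℂ} (hf : AnalyticOnNhd ℂ f U)
    (hL : ∀ s : ℂ, 3 / 2 < s.re → f s = LSeries V s) :
    ∃ r : ℕ, HasRank E r ∧ Even (analyticOrderNatAt f 1 + r) := by
  obtain ⟨r, o, hr, ⟨-, h2⟩, hev⟩ := h
  have h3 := h2 f ⟨fun z hz => (hf z hz).meromorphicAt, V, hV, hL⟩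
  refine ⟨r, hr, ?_⟩
  rw [(hf 1 h1).meromorphicOrderAt_eq] at h3
  unfold analyticOrderNatAt
  revert h3
  cases hk : analyticOrderAt f 1 with
  | top => intro h3; exact absurd h3 (by simp)
  | coe k =>
    intro h3
    have h4 : ((k : ℤ) : WithTop ℤ) = (o : WithTop ℤ) := h3
    have h5 : (k : ℤ) = o := WithTop.coe_injective h4
    rw [← h5] at hev
    have h6 : ENat.toNat (k : ℕ∞) = k := rfl
    rw [h6]
    exact_mod_cast hev

open Classical in
theorem finrank_of {K : Type} [Field K] {E : WeierstrassCurve K} {r : ℕ} (h : HasRank E r) :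
    Module.finrank ℤ E.toAffine.Point = r := by
  unfold HasRank at h
  rw [Module.finrank, h]
  exact Cardinal.toNat_natCast _

end Aux

/-- **Descent of the conjecture of Birch and Swinnerton-Dyer modulo 2.** -/
theorem result :
    (∀ (K : Type) [Field K] [NumberField K] (m n : ℕ), 0 < m → 0 < n → Odd (Nat.gcd m n) →
      ∃ (r : ℕ) (F : Fin r → Type) (_ : ∀ i, Field (F i)) (_ : ∀ i, NumberField (F i))
        (_ : ∀ i, Algebra K (F i)) (e : Fin r → ℤ),
        (∀ i, (m ∣ Module.finrank K (F i) ∧ Module.finrank K (F i) ∣ m ^ 2) ∨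
          (n ∣ Module.finrank K (F i) ∧ Module.finrank K (F i) ∣ n ^ 2)) ∧
        ∀ E : WeierstrassCurve K, E.IsElliptic → ∀ U : Set ℂ, Region U →
          (∃ Λ, IsContinuation E U Λ) → (∀ i, Continues (E.map (algebraMap K (F i))) U) →
          (∀ i, Odd (e i) → SameParity (E.map (algebraMap K (F i))) U) → SameParity E U) ∧
    (∀ (K L : Type) [Field K] [NumberField K] [Field L] [NumberField L] [Algebra K L]
      [IsGalois K L] (E : WeierstrassCurve K), E.IsElliptic → ∀ U : Set ℂ, Region U →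
        (∃ Λ, IsContinuation E U Λ) →
        (∀ F : IntermediateField K L, TwoHyperelementary F.fixingSubgroup →
          SameParity (E.map (algebraMap K F)) U) → SameParity E U) ∧
    (∀ n : ℕ, Odd n →
      (∀ (F : Type) [Field F] [NumberField F], n ∣ Module.finrank ℚ F →
        ∀ E : WeierstrassCurve F, E.IsElliptic → SameParity E Set.univ) → Q1) := by
  have main : ∀ (K : Type) [Field K] [NumberField K] (m n : ℕ), 0 < m → 0 < n →
      Odd (Nat.gcd m n) →
      ∃ (r : ℕ) (F : Fin r → Type) (_ : ∀ i, Field (F i)) (_ : ∀ i, NumberField (F i))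
        (_ : ∀ i, Algebra K (F i)) (e : Fin r → ℤ),
        (∀ i, (m ∣ Module.finrank K (F i) ∧ Module.finrank K (F i) ∣ m ^ 2) ∨
          (n ∣ Module.finrank K (F i) ∧ Module.finrank K (F i) ∣ n ^ 2)) ∧
        ∀ E : WeierstrassCurve K, E.IsElliptic → ∀ U : Set ℂ, Region U →
          (∃ Λ, IsContinuation E U Λ) → (∀ i, Continues (E.map (algebraMap K (F i))) U) →
          (∀ i, Odd (e i) → SameParity (E.map (algebraMap K (F i))) U) → SameParity E U := by
    intro K _ _ m n hm hn hg
    obtain ⟨r, Z, e, hne, hd, L, i1, i2, i3, i4, f, hf⟩ :=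
      Pool.Agent.R333.BR.exists_fam K hm hn
    exact ⟨r, fun i => (Z i).F, fun i => (Z i).field, fun i => (Z i).nf, fun i => (Z i).alg, e, hd,
      fun E hE U hU hc0 hc ho => parity Z f e _ hg hf E hE hU hc ho hc0⟩
  refine ⟨main, fun K L _ _ _ _ _ _ E hE U hU hc hF => hyper K L E hE hU hF hc, ?_⟩
  intro n hn H K _ _ E hE V hV U f hUo hUc h1U hHU hf hL
  have hn0 : 0 < n := hn.pos
  obtain ⟨r, F, i1, i2, i3, e, hd, h⟩ := main K n n hn0 hn0 (by rwa [Nat.gcd_self])
  have hU : Region U := ⟨hUc.isPreconnected, fun s hs => hHU hs, h1U⟩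
  have hF : ∀ i, SameParity (E.map (algebraMap K (F i))) U := by
    intro i
    have h2 : n ∣ Module.finrank ℚ (F i) := by
      rw [← Module.finrank_mul_finrank ℚ K (F i)]
      have h1 : n ∣ Module.finrank K (F i) := by
        rcases hd i with h1 | h1
        · exact h1.1
        · exact h1.1
      exact Dvd.dvd.mul_left h1 _
    obtain ⟨rk, o, hrk, ⟨⟨Λ, hΛ1, hΛ2⟩, ho⟩, hev⟩ := H (F i) h2 (E.map (algebraMap K (F i)))
      inferInstance
    have hΛU : IsContinuation (E.map (algebraMap K (F i))) U Λ :=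
      ⟨fun z _ => hΛ1 z trivial, hΛ2⟩
    obtain ⟨o', ho'⟩ := exists_order (inferInstance : (E.map (algebraMap K (F i))).IsElliptic) hU
      ⟨Λ, hΛU⟩
    have h3 : o' = o := by
      have h4 := (ho'.2 Λ hΛU).symm.trans (ho Λ ⟨hΛ1, hΛ2⟩)
      exact WithTop.coe_injective h4
    exact ⟨rk, o, hrk, h3 ▸ ho', hev⟩
  have hE2 := h E hE U hU ⟨f, fun z hz => (hf z hz).meromorphicAt, V, hV, hL⟩
    (fun i => by
      obtain ⟨rk, o, hrk, ho, -⟩ := hF i
      exact ⟨⟨rk, hrk⟩, ho.1⟩) fun i _ => hF i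
  obtain ⟨rk, hrk, hev⟩ := order_of hE2 hV h1U hf hL
  rw [finrank_of hrk]
  exact hev

end Pool.Agent.Results.MP_413b36_nt.OddDegreeDescent
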