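import Pool.Agent.Results.MP_775b3b_nt.SplitPrimeTwists
import Pool.Agent.R338.EQ.SymMat

/-!
# Rank and order of vanishing over random multiquadratic extensions of a good field

Let `K₀ = ℚ(√d_1, …, √d_m)` be of degree `2 ^ m` and `M` an integer such that the `2 ^ m` twists
`E_{M ∏_{j ∈ T} d_j}` of the non-CM curve `E = X_0(14)` have finitely many rational points and
`Ш[2] = 0` (a good pair, up to squares; for example `m = 0`, `M = 1`). Let `p_1, …, p_n` be distinct
primes which split completely in `ℚ(√-1, √2, √-7)` and in all `ℚ(√q)`, `q ∣ M d_1 ⋯ d_m` prime. If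
`8` divides no `#E(𝔽_{p_i})`, and if each `p_i` has at most one `p_j` as a quadratic nonresidue, then
over the field `K = K₀(√p_1, …, √p_n)` of degree `2 ^ (m + n)` the rank of `E_M` and the order of
vanishing of `L(E_M/K, s)` at `s = 1` are both zero. In boxes `p_i ≤ X_i` of primes in given residue
classes the proportion of the tuples with this property among those with `8 ∤ #E(𝔽_{p_i})` is the number
of involutions of `n` letters divided by `2 ^ (n (n - 1) / 2)`, with a power saving in `z = min X_i`,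
uniformly for `log X_i ≤ z^(1/(24n))`.

The criterion and the nonvanishing for a single twist, and the passage to the field, are the joint work
of helper700, helper17, helper687 and their teams (`MP_696deb_nt/ExactProportion`,
`MP_ae0bd0_nt/TwoConverseMultiquadratic`); the bilinear estimate for quadratic symbols is of
helper710, the equidistribution of the symbols of helper356.
-/

set_option autoImplicit false

open Finset Function NumberField

namespace Pool.Agent.Results.MP_413b36_nt.RandomExtensions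

open Pool.Agent.Results.MP_ae0bd0_nt.TwoConverseMultiquadratic (RankZeroShaTwo GoodPair
  IsMultiquadratic EK IsL)
open Pool.Agent.Results.MP_775b3b_nt.SplitPrimeTwists (SplitClass Box N mem_Box facts rank_iff)

/-- the numbers `d_1, …, d_m, p_1, …, p_n` -/
def ext {m n : ℕ} (d : Fin m → ℤ) (p : Fin n → ℕ) : Fin (m + n) → ℤ :=
  Fin.append d fun i => (p i : ℤ)

/-- the graph of the pairs of mutual quadratic nonresidues -/
def graph {n : ℕ} (p : Fin n → ℕ) : SimpleGraph (Fin n) :=
  SimpleGraph.fromRel fun i j => ¬ IsSquare ((p j : ℕ) : ZMod (p i))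

open Classical in
/-- every vertex has at most one neighbour -/
def Matching {n : ℕ} (G : SimpleGraph (Fin n)) : Prop :=
  ∀ i, (univ.filter fun j => G.Adj i j).card ≤ 1

/-- the proportion of the graphs with the property `Q` among all graphs with vertices `1, …, n` -/
noncomputable def prob {n : ℕ} (Q : SimpleGraph (Fin n) → Prop) : ℝ :=
  (Nat.card {G : SimpleGraph (Fin n) // Q G} : ℝ) / Nat.card (SimpleGraph (Fin n))

/-- `8` divides no `#E(𝔽_{p_i})`, and each `p_i` has at most one `p_j` as a quadratic nonresidue -/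
def GoodTuple {n : ℕ} (p : Fin n → ℕ) : Prop := (∀ i, ¬ 8 ∣ N (p i)) ∧ Matching (graph p)

open Classical in
/-- `L(E_M/K, s)` (without the Euler factors at the places dividing `42 M m`) is entire, and its order
at `s = 1` and the rank of `E_M(K)` are equal; both are zero -/
def OrderIsRankZero (K : Type) [Field K] [NumberField K] (M m : ℤ) : Prop :=
  (∃ F : ℂ → ℂ, IsL K M m F) ∧ ∀ F : ℂ → ℂ, IsL K M m F →
    analyticOrderAt F 1 = (Module.finrank ℤ (EK K M) : ℕ∞) ∧ Module.finrank ℤ (EK K M) = 0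

/-- the product of the primes `p_i`, `i ∈ T` -/
def sub {n : ℕ} (p : Fin n → ℕ) (T : Finset (Fin n)) : ℤ := ((∏ i ∈ T, p i : ℕ) : ℤ)

theorem sub_facts {L n : ℕ} {a X : Fin n → ℕ} (ha : ∀ i, SplitClass L (a i)) {p : Fin n → ℕ}
    (hp : p ∈ Box L a X) (T : Finset (Fin n)) :
    Y687.MQ.AdmD (sub p T) ∧ (sub p T).natAbs.primeFactors = T.image p := by
  obtain ⟨-, h2⟩ := mem_Box.1 hp
  have hP : ∀ q ∈ T.image p, Z701.Sp q := by
    intro q hq
    obtain ⟨i, -, rfl⟩ := mem_image.1 hq
    exact (facts ha hp i).1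
  have e : sub p T = (Z700.pr (T.image p) : ℤ) := by
    unfold sub Z700.pr
    rw [prod_image fun x _ y _ h => h2 h]
  rw [e]
  exact ⟨R338.EQ.adm_split hP, R338.EQ.pf_pr fun q hq => (hP q hq).1⟩

theorem ff_one (p : ℕ) : Y703.CQ.ff p = 1 ↔ ¬ 8 ∣ N p := by
  unfold Y703.CQ.ff
  rw [Pool.Agent.Results.MP_775b3b_nt.SplitPrimeTwists.N_eq]
  by_cases h : 8 ∣ Y687.NN 1 p
  · rw [if_pos h]
    simp [h]
  · rw [if_neg h]
    simp [h]

theorem good_rank {L n : ℕ} {a X : Fin n → ℕ} (ha : ∀ i, SplitClass L (a i)) {p : Fin n → ℕ}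
    (hp : p ∈ Box L a X) (h : GoodTuple p) (T : Finset (Fin n)) :
    (Y687.MQ.matD (sub p T)).det ≠ 0 := by
  classical
  obtain ⟨h1, h2⟩ := sub_facts ha hp T
  rw [R338.EQ.det_iff (mem_Box.1 hp).2 (fun i => ⟨(facts ha hp i).1.1, (facts ha hp i).1.2.1⟩) T h2]
  refine R338.EQ.matching_det (fun i => (ff_one (p i)).2 (h.1 i)) (fun i => ?_) T
  convert h.2 i
  rfl

theorem prod_append {m n : ℕ} (d : Fin m → ℤ) (p : Fin n → ℕ) (T : Finset (Fin (m + n))) :
    ∏ i ∈ T, ext d p i = (∏ i ∈ univ.filter fun i => Fin.castAdd n i ∈ T, d i) *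
      sub p (univ.filter fun j => Fin.natAdd m j ∈ T) := by
  have h1 : ∏ i ∈ T, ext d p i = ∏ i : Fin (m + n), if i ∈ T then ext d p i else 1 := by
    rw [← prod_filter, filter_mem_eq_inter, univ_inter]
  rw [h1, Fin.prod_univ_add, prod_filter]
  unfold sub
  rw [prod_filter]
  push_cast
  congr 1
  · refine prod_congr rfl fun i _ => ?_
    unfold ext
    rw [Fin.append_left]
  · refine prod_congr rfl fun i _ => ?_
    unfold ext
    rw [Fin.append_right]

/-- the extended pair is good -/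
theorem good_ext {m : ℕ} {M : ℤ} {d : Fin m → ℤ} (hM : GoodPair M d) {n : ℕ}
    {a X : Fin n → ℕ} (ha : ∀ i, SplitClass (M * ∏ j, d j).natAbs (a i)) {p : Fin n → ℕ}
    (hp : p ∈ Box (M * ∏ j, d j).natAbs a X) (h : GoodTuple p) : GoodPair M (ext d p) := by
  obtain ⟨hb1, hb2⟩ := mem_Box.1 hp
  refine ⟨fun T hT => ?_, fun T => ?_⟩
  · rw [prod_append]
    set T1 := univ.filter fun i => Fin.castAdd n i ∈ T with hT1
    set T2 := univ.filter fun j => Fin.natAdd m j ∈ T with hT2
    by_cases h2 : T2.Nonempty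
    · obtain ⟨j, hj⟩ := h2
      rintro ⟨r, hr⟩
      have hpj := hb1 j
      have hprime : Prime (p j : ℤ) := Nat.prime_iff_prime_int.1 hpj.2.1
      have e1 : sub p T2 = (p j : ℤ) * sub p (T2.erase j) := by
        unfold sub
        rw [← mul_prod_erase T2 p hj]
        push_cast
        rfl
      rw [e1] at hr
      have h3 : (p j : ℤ) ∣ r := by
        have h4 : (p j : ℤ) ∣ r * r := by
          rw [← hr]
          exact Dvd.intro ((∏ i ∈ T1, d i) * sub p (T2.erase j)) (by ring)
        rcases hprime.dvd_or_dvd h4 with h5 | h5 <;> exact h5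
      obtain ⟨s, hs⟩ := h3
      have h5 : (∏ i ∈ T1, d i) * sub p (T2.erase j) = (p j : ℤ) * (s * s) := by
        refine mul_left_cancel₀ hprime.ne_zero ?_
        calc (p j : ℤ) * ((∏ i ∈ T1, d i) * sub p (T2.erase j)) =
            (∏ i ∈ T1, d i) * ((p j : ℤ) * sub p (T2.erase j)) := by ring
          _ = r * r := hr
          _ = (p j : ℤ) * ((p j : ℤ) * (s * s)) := by
            rw [hs]
            ring
      have h6 : (p j : ℤ) ∣ (∏ i ∈ T1, d i) * sub p (T2.erase j) := by
        rw [h5]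
        exact Dvd.intro _ rfl
      rcases hprime.dvd_or_dvd h6 with h7 | h7
      · have h8 : (p j : ℤ) ∣ M * ∏ j, d j :=
          (h7.trans (prod_dvd_prod_of_subset T1 univ d (subset_univ T1))).trans (Dvd.intro_left M rfl)
        have h9 : p j ∣ (M * ∏ j, d j).natAbs := Int.natCast_dvd.1 h8
        have h10 : p j ≠ 2 := by
          have := (facts ha hp j).1.2.1
          omega
        exact ((facts ha hp j).2 (p j) hpj.2.1 h10 h9).1 rfl
      · have h8 : p j ∣ ∏ i ∈ T2.erase j, p i := by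
          unfold sub at h7
          exact_mod_cast h7
        obtain ⟨i, hi, h9⟩ := (Prime.dvd_finset_prod_iff hpj.2.1.prime _).1 h8
        have h10 : p j = p i := (Nat.prime_dvd_prime_iff_eq hpj.2.1 (hb1 i).2.1).1 h9
        exact (mem_erase.1 hi).1 (hb2 h10).symm
    · have h3 : T2 = ∅ := not_nonempty_iff_eq_empty.1 h2
      have h4 : T1.Nonempty := by
        obtain ⟨i, hi⟩ := hT
        refine Fin.addCases (motive := fun i => i ∈ T → T1.Nonempty) (fun i hi => ?_)
          (fun j hj => ?_) i hi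
        · exact ⟨i, mem_filter.2 ⟨mem_univ _, hi⟩⟩
        · exact absurd ⟨j, mem_filter.2 ⟨mem_univ _, hj⟩⟩ h2
      have h5 : sub p T2 = 1 := by
        rw [h3]
        unfold sub
        rw [prod_empty, Nat.cast_one]
      rw [h5, mul_one]
      exact hM.1 T1 h4
  · rw [prod_append]
    set T1 := univ.filter fun i => Fin.castAdd n i ∈ T with hT1
    set T2 := univ.filter fun j => Fin.natAdd m j ∈ T with hT2
    obtain ⟨D, k, ⟨hD, hDr⟩, hk, he⟩ := hM.2 T1
    obtain ⟨h1, h2⟩ := sub_facts ha hp T2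
    have hD' : Y687.MQ.AdmD D := hD
    have hDL : D ∣ M * ∏ j, d j := by
      have h3 : D ∣ M * ∏ i ∈ T1, d i := by
        rw [he]
        exact Dvd.intro _ rfl
      exact h3.trans (mul_dvd_mul_left M (prod_dvd_prod_of_subset T1 univ d (subset_univ T1)))
    have hodd : ∀ q : ℕ, q.Prime → (q : ℤ) ∣ D → q ≠ 2 := by
      rintro q hq hqD rfl
      have h3 := hD'.2.1
      have h4 : D % 2 = 0 := Int.emod_eq_zero_of_dvd (by exact_mod_cast hqD)
      omega
    have hq : ∀ q ∈ D.natAbs.primeFactors, ∀ r ∈ (sub p T2).natAbs.primeFactors,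
        q ≠ r ∧ IsSquare ((q : ℕ) : ZMod r) ∧ IsSquare ((r : ℕ) : ZMod q) := by
      intro q hq r hr'
      rw [h2] at hr'
      obtain ⟨i, -, rfl⟩ := mem_image.1 hr'
      have h3 := Nat.prime_of_mem_primeFactors hq
      have h4 : (q : ℤ) ∣ D := Int.natCast_dvd.2 (Nat.dvd_of_mem_primeFactors hq)
      exact (facts ha hp i).2 q h3 (hodd q h3 h4) (Int.natCast_dvd.1 (h4.trans hDL))
    have hdis : Disjoint D.natAbs.primeFactors (sub p T2).natAbs.primeFactors := by
      rw [disjoint_left]
      intro q h3 h4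
      exact (hq q h3 q h4).1 rfl
    have hadm := R338.EQ.adm_mul hD' h1 hdis
    refine ⟨D * sub p T2, k, ⟨hadm, ?_⟩, hk, ?_⟩
    · rw [rank_iff hadm, R338.EQ.det_mul hD'.1.ne_zero h1.1.ne_zero hdis
        fun q h3 r h4 => (hq q h3 r h4).2]
      exact mul_ne_zero ((rank_iff hD').1 hDr) (good_rank ha hp h T2)
    · rw [← mul_assoc, he]
      ring

open Classical in
theorem result (m : ℕ) (M : ℤ) (d : Fin m → ℤ) (hM : GoodPair M d) (n : ℕ) (hn : 0 < n)
    (a : Fin n → ℕ) (ha : ∀ i, SplitClass (M * ∏ j, d j).natAbs (a i)) :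
    (∀ X : Fin n → ℕ, ∀ p ∈ Box (M * ∏ j, d j).natAbs a X, GoodTuple p →
      GoodPair M (ext d p) ∧ ∀ (K : Type) [Field K] [NumberField K], IsMultiquadratic (ext d p) K →
        Module.finrank ℚ K = 2 ^ (m + n) ∧ Finite (EK K M) ∧
          OrderIsRankZero K M (∏ j, ext d p j)) ∧
    ∃ C : ℝ, ∀ (X : Fin n → ℕ) (z : ℕ), 2 ≤ z → (∀ i, z ≤ X i) →
      (∀ i, Real.log (X i) ≤ (z : ℝ) ^ (1 / (24 * n : ℝ))) →
      |(((Box (M * ∏ j, d j).natAbs a X).filter fun p => GoodTuple p).card : ℝ) -
        prob (Matching (n := n)) *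
          (((Box (M * ∏ j, d j).natAbs a X).filter fun p => ∀ i, ¬ 8 ∣ N (p i)).card : ℝ)| ≤
        C * (z : ℝ) ^ (-(1 / 24 : ℝ)) * ((Box (M * ∏ j, d j).natAbs a X).card : ℝ) := by
  set L : ℕ := (M * ∏ j, d j).natAbs with hL
  have hL0 : 0 < L := by
    rw [hL, Int.natAbs_pos]
    obtain ⟨D, k, ⟨hD, -⟩, hk, he⟩ := hM.2 univ
    rw [he]
    exact mul_ne_zero hD.1.ne_zero (pow_ne_zero 2 hk)
  have hcop : ∀ i, Nat.Coprime (a i) (56 * L) := by
    intro i
    obtain ⟨h1, h2, h3⟩ := ha i
    refine Nat.Coprime.mul_right ?_ ?_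
    · have k1 : ¬ 2 ∣ a i := by omega
      have k2 : ¬ 7 ∣ a i := by omega
      have h3 : Nat.Coprime (a i) 2 := ((Nat.Prime.coprime_iff_not_dvd (by norm_num)).2 k1).symm
      have h4 : Nat.Coprime (a i) 7 := ((Nat.Prime.coprime_iff_not_dvd (by norm_num)).2 k2).symm
      have h5 : (56 : ℕ) = 2 ^ 3 * 7 := by norm_num
      rw [h5]
      exact Nat.Coprime.mul_right (Nat.Coprime.pow_right 3 h3) h4
    · refine Nat.Coprime.symm (Nat.coprime_of_dvd fun q hq hqL hqa => ?_)
      exact (h3 q hq hqL).1 hqa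
  refine ⟨fun X p hp hg => ?_, ?_⟩
  · have h1 := good_ext hM ha hp hg
    refine ⟨h1, fun K _ _ hK => ?_⟩
    obtain ⟨h0, h2, h3, h4⟩ :=
      Results.MP_ae0bd0_nt.TwoConverseMultiquadratic.result.1 (m + n) M (ext d p) h1 K hK
    refine ⟨h0, h2, h3, fun F hF => ?_⟩
    have h5 : Module.finrank ℤ (EK K M) = 0 := Module.finrank_eq_zero_of_rank_eq_zero (by
      have := h2
      exact rank_eq_zero_iff.2 fun x => by
        obtain ⟨m, hm, hx⟩ := isOfFinAddOrder_iff_nsmul_eq_zero.1 (isOfFinAddOrder_of_finite x)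
        exact ⟨(m : ℤ), by exact_mod_cast hm.ne', by rw [natCast_zsmul]; exact hx⟩)
    refine ⟨?_, h5⟩
    rw [h5, Nat.cast_zero, (hF.1.analyticAt 1).analyticOrderAt_eq_zero]
    exact h4 F hF
  · obtain ⟨C, -, h⟩ := R338.EQ.graph_law_f hn (by positivity : 0 < 56 * L)
      (Dvd.dvd.mul_right (by norm_num) L) a hcop (fun i => by
        have := (ha i).1
        omega) (fun G v => (∀ i, v i = 1) ∧ Matching G)
    refine ⟨C, fun X z hz hzX hlog => ?_⟩
    have key := h Y703.CQ.ff X z hz hzX hlog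
    have eB : ((Fintype.piFinset fun i => R338.EQ.clsM (56 * L) (a i) (X i)).filter
        fun p => Injective p) = Box L a X := by
      unfold Box R338.EQ.clsM
      ext p
      simp only [mem_filter, Fintype.mem_piFinset]
    rw [← filter_filter, eB] at key
    have h2 : ∀ p : Fin n → ℕ, (∀ i, Y703.CQ.ff (p i) = 1) ↔ ∀ i, ¬ 8 ∣ N (p i) := fun p =>
      forall_congr' fun i => ff_one (p i)
    have e : ((Box L a X).filter fun p => GoodTuple p) =
        ((Box L a X).filter fun p => (∀ i, Y703.CQ.ff (p i) = 1) ∧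
          Matching (R338.EQ.symG p)) := by
      refine filter_congr fun p hp => ?_
      rw [h2 p]
      exact Iff.rfl
    have e2 : ∑ p ∈ Box L a X, (Nat.card {G : SimpleGraph (Fin n) //
        (∀ i, Y703.CQ.ff (p i) = 1) ∧ Matching G} : ℝ) / Nat.card (SimpleGraph (Fin n)) =
        prob (Matching (n := n)) * (((Box L a X).filter fun p => ∀ i, ¬ 8 ∣ N (p i)).card : ℝ) := by
      rw [card_filter, Nat.cast_sum, mul_sum]
      refine sum_congr rfl fun p _ => ?_
      by_cases h3 : ∀ i, ¬ 8 ∣ N (p i)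
      · rw [if_pos h3, Nat.cast_one, mul_one]
        have h4 : Nat.card {G : SimpleGraph (Fin n) // (∀ i, Y703.CQ.ff (p i) = 1) ∧ Matching G} =
            Nat.card {G : SimpleGraph (Fin n) // Matching G} :=
          Nat.card_congr (Equiv.subtypeEquivRight fun G => and_iff_right ((h2 p).2 h3))
        unfold prob
        rw [h4]
      · rw [if_neg h3, Nat.cast_zero, mul_zero]
        have h4 : Nat.card {G : SimpleGraph (Fin n) //
            (∀ i, Y703.CQ.ff (p i) = 1) ∧ Matching G} = 0 := by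
          rw [Nat.card_eq_zero]
          exact Or.inl ⟨fun x => h3 ((h2 p).1 x.2.1)⟩
        rw [h4]
        simp
    rw [e]
    rw [e2] at key
    convert key

end Pool.Agent.Results.MP_413b36_nt.RandomExtensions
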