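import Pool.Agent.R386.TC.Ord
import Pool.Agent.R386.TC.Rel

/-!
# The defect `ord_{s=1} L(E/F, s) - rk E(F)` and the real places of `F`

`E` is an elliptic curve over a number field `K`.  Suppose that the order of `L(E/F, s)` at `s = 1` is
the rank of `E(F)` for all totally complex finite extensions `F` of `K`.  Then for ALL finite
extensions `F` of `K` the defect `ord_{s=1} L(E/F, s) - rk E(F)` depends only on the numbers of real
places of `F` above the real places of `K`, and it depends linearly on them.  If all the real places of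
`K` have the same number `t` of real places of `F` above them then the defect over `F` is `t` times the
defect over `K`.

For `K = ℚ`: the defect over `F` is `r₁(F)` times the defect over `ℚ`.  So the order and the rank have
the same parity over all number fields of even degree, and over a number field of odd degree if and only
if they have the same parity over `ℚ`.

The proof.  The centralizer of a complex conjugation `c` in `Gal(K̄/K)` is `{1, c}`, so that the closure
of the subgroup generated by an element other than `c` contains no complex conjugation.  By compactness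
every integral combination of permutation characters which vanishes at the complex conjugations is, up to
a positive integer, a combination of permutation characters of totally complex fields.  The orders and
the ranks satisfy all relations between permutation characters (`Pool.Agent.R333.BR`, `R433.MD`).
-/

set_option autoImplicit false

namespace Pool.Agent.Results.MP_413b36_nt.RealPlaceDefect

open NumberField IsDedekindDomain

/-- `V v` is, for every prime `v`, an integral model of `E` with discriminant minimal at `v`. -/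
def MinimalModels {K : Type} [Field K] [NumberField K] (E : WeierstrassCurve K)
    (V : HeightOneSpectrum (𝓞 K) → WeierstrassCurve (𝓞 K)) : Prop :=
  ∀ v : HeightOneSpectrum (𝓞 K),
    (∃ C : WeierstrassCurve.VariableChange K, C • (V v).map (algebraMap (𝓞 K) K) = E) ∧
    ∀ W : WeierstrassCurve (𝓞 K),
      (∃ C : WeierstrassCurve.VariableChange K, C • W.map (algebraMap (𝓞 K) K) = E) →
        ∀ n : ℕ, (V v).Δ ∈ v.asIdeal ^ n → W.Δ ∈ v.asIdeal ^ n

open Classical in
/-- The Euler product of `L(E/K, s)` over all primes `v` of `K`, computed from the reductions of the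
models `V v`: `a_v` is `q_v` minus the number of affine points of the reduction, at all primes. -/
noncomputable def LSeries {K : Type} [Field K] [NumberField K]
    (V : HeightOneSpectrum (𝓞 K) → WeierstrassCurve (𝓞 K)) (s : ℂ) : ℂ :=
  ∏' v : HeightOneSpectrum (𝓞 K),
    (1 - ((Ideal.absNorm v.asIdeal : ℂ)
          - (Nat.card {xy : (𝓞 K ⧸ v.asIdeal) × (𝓞 K ⧸ v.asIdeal) //
              ((V v).map (Ideal.Quotient.mk v.asIdeal)).toAffine.Equation xy.1 xy.2} : ℂ))
          * (Ideal.absNorm v.asIdeal : ℂ) ^ (-s)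
      + (if (V v).Δ ∈ v.asIdeal then 0 else (Ideal.absNorm v.asIdeal : ℂ))
          * (Ideal.absNorm v.asIdeal : ℂ) ^ (-2 * s))⁻¹

/-- `Λ` is a meromorphic continuation of `L(E/K, s)` to the set `U` of complex numbers. -/
def IsContinuation {K : Type} [Field K] [NumberField K] (E : WeierstrassCurve K) (U : Set ℂ)
    (Λ : ℂ → ℂ) : Prop :=
  MeromorphicOn Λ U ∧
    ∃ V : HeightOneSpectrum (𝓞 K) → WeierstrassCurve (𝓞 K), MinimalModels E V ∧
      ∀ s : ℂ, 3 / 2 < s.re → Λ s = LSeries V s

/-- `U` is a connected set that contains the half-plane `Re s > 3/2` and the point `s = 1`. -/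
def Region (U : Set ℂ) : Prop :=
  IsPreconnected U ∧ (∀ s : ℂ, 3 / 2 < s.re → s ∈ U) ∧ (1 : ℂ) ∈ U

open Classical in
/-- The rank of the group `E(K)` is `r`. -/
def HasRank {K : Type} [Field K] (E : WeierstrassCurve K) (r : ℕ) : Prop :=
  Module.rank ℤ E.toAffine.Point = r

/-- `L(E/K, s)` has a meromorphic continuation to `U`, and the order of the continuation at `s = 1`
is `k`. -/
def HasOrder {K : Type} [Field K] [NumberField K] (E : WeierstrassCurve K) (U : Set ℂ) (k : ℤ) :
    Prop :=
  (∃ Λ, IsContinuation E U Λ) ∧ ∀ Λ, IsContinuation E U Λ → meromorphicOrderAt Λ 1 = k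

/-- The order of `L(E/K, s)` at `s = 1` minus the rank of `E(K)` is `d`. -/
def HasDefect {K : Type} [Field K] [NumberField K] (E : WeierstrassCurve K) (U : Set ℂ) (d : ℤ) :
    Prop :=
  ∃ (r : ℕ) (k : ℤ), HasRank E r ∧ HasOrder E U k ∧ k - r = d

/-- The order of `L(E/K, s)` at `s = 1` and the rank of `E(K)` have the same parity. -/
def SameParity {K : Type} [Field K] [NumberField K] (E : WeierstrassCurve K) (U : Set ℂ) : Prop :=
  ∃ (r : ℕ) (k : ℤ), HasRank E r ∧ HasOrder E U k ∧ k ≡ r [ZMOD 2]

/-- The number of real places of `F` above the real place `φ` of `K`. -/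
noncomputable def realPlaces {K : Type} [Field K] (F : Type) [Field F] [Algebra K F]
    (φ : K →+* ℝ) : ℕ :=
  Nat.card {τ : F →+* ℝ // τ.comp (algebraMap K F) = φ}

section Aux

open Pool.Agent.H341R2.EC Pool.Agent.R433.MD Pool.Agent.R333.BR Pool.Agent.R386.TC
open Pool.Agent.H921R2.TatePole (nm two_le_nm)

section bridge
variable {K : Type} [Field K] [NumberField K]

theorem isModel_iff (E : WeierstrassCurve K) (W : WeierstrassCurve (𝓞 K)) :
    (∃ C : WeierstrassCurve.VariableChange K, C • W.map (algebraMap (𝓞 K) K) = E) ↔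
      IsModel E W := by
  constructor
  · rintro ⟨C, hC⟩
    exact ⟨C⁻¹, by rw [← hC, inv_smul_smul]⟩
  · rintro ⟨C, hC⟩
    exact ⟨C⁻¹, by rw [← hC, inv_smul_smul]⟩

theorem minimalModels_iff (E : WeierstrassCurve K)
    (V : HeightOneSpectrum (𝓞 K) → WeierstrassCurve (𝓞 K)) :
    MinimalModels E V ↔ ∀ v, IsMinAt E v (V v) := by
  unfold MinimalModels IsMinAt
  simp only [isModel_iff]

theorem lseries_eq (V : HeightOneSpectrum (𝓞 K) → WeierstrassCurve (𝓞 K)) (s : ℂ) :
    LSeries V s = LL V s := by
  unfold LSeries LL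
  refine tprod_congr fun v => ?_
  congr 1
  unfold lf trc dlt
  have h0 : ((nm v : ℕ) : ℂ) ≠ 0 := by
    have := two_le_nm v
    exact_mod_cast (by omega : nm v ≠ 0)
  have e1 : Nat.card {xy : (𝓞 K ⧸ v.asIdeal) × (𝓞 K ⧸ v.asIdeal) //
      ((V v).map (Ideal.Quotient.mk v.asIdeal)).toAffine.Equation xy.1 xy.2} =
      aff (red v (V v)) := by
    unfold aff red
    refine Nat.card_congr (Equiv.subtypeEquivRight fun xy => ?_)
    rw [WeierstrassCurve.Affine.equation_iff]
  have e2 : ((nm v : ℕ) : ℂ) ^ (1 - 2 * s) = ((nm v : ℕ) : ℂ) * ((nm v : ℕ) : ℂ) ^ (-2 * s) := by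
    rw [sub_eq_add_neg, Complex.cpow_add _ _ h0, Complex.cpow_one]
    congr 2
    ring
  have e3 : (Ideal.absNorm v.asIdeal : ℂ) = ((nm v : ℕ) : ℂ) := rfl
  rw [e1, e2, e3]
  push_cast
  split_ifs with h
  · ring
  · ring

theorem isContinuation_iff (E : WeierstrassCurve K) (U : Set ℂ) (Λ : ℂ → ℂ) :
    IsContinuation E U Λ ↔ MeromorphicOn Λ U ∧
      ∃ V : HeightOneSpectrum (𝓞 K) → WeierstrassCurve (𝓞 K), (∀ v, IsMinAt E v (V v)) ∧
        ∀ s : ℂ, 3 / 2 < s.re → Λ s = LL V s := by
  unfold IsContinuation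
  simp only [minimalModels_iff, lseries_eq]

/-- two continuations have the same order -/
theorem hasOrder_of {E : WeierstrassCurve K} (hE : E.IsElliptic) {U : Set ℂ} (hU : Region U)
    {Λ : ℂ → ℂ} (hΛ : IsContinuation E U Λ) : ∃ k : ℤ, HasOrder E U k := by
  have hEK : E.map (algebraMap K (Ext.self K).F) = E := E.map_id
  obtain ⟨h1, V, hV, h2⟩ := (isContinuation_iff _ _ _).1 hΛ
  have h3 : meromorphicOrderAt Λ 1 ≠ ⊤ := order_ne_top hU.1 hU.2.1 hU.2.2 h1 fun s hs => by
    rw [h2 s hs]
    exact LL_ne_zero hE hV hs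
  obtain ⟨k, hk⟩ := WithTop.ne_top_iff_exists.1 h3
  refine ⟨k, ⟨Λ, hΛ⟩, fun Λ' hΛ' => ?_⟩
  obtain ⟨h1', V', hV', h2'⟩ := (isContinuation_iff _ _ _).1 hΛ'
  obtain ⟨r0, h5, h6⟩ := ord_rel (L := K) hU.1 hU.2.1 hU.2.2 (fun _ : Unit => Ext.self K)
    (fun _ => AlgHom.id K K) (fun _ => 1) 1 (by
      intro g
      rw [fx_card]
      simp only [Finset.univ_unique, Finset.sum_const, Finset.card_singleton, one_smul, one_mul,
        Nat.cast_one, Nat.cast_eq_one]
      rw [Nat.card_eq_one_iff_unique]
      have hs : Subsingleton ((Ext.self K).F →ₐ[K] K) :=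
        inferInstanceAs (Subsingleton (K →ₐ[K] K))
      refine ⟨⟨fun a b => Subtype.ext (Subsingleton.elim _ _)⟩, ⟨⟨AlgHom.id K K, fun x => ?_⟩⟩⟩
      exact g.commutes x) E hE V' hV' (fun _ => V) (fun _ w => by
        rw [hEK]
        exact hV w) h1' h2' (Λ := fun _ => Λ) (fun _ => h1) (fun _ => h2) (fun _ => k)
    (fun _ => hk.symm)
  rw [h5]
  simp only [Finset.univ_unique, Finset.sum_const, Finset.card_singleton, one_smul, one_mul,
    Nat.cast_one] at h6
  rw [h6]

omit [NumberField K] in
theorem hasRank_unique {E : WeierstrassCurve K} {r r' : ℕ} (h : HasRank E r) (h' : HasRank E r') :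
    r = r' := by
  unfold HasRank at h h'
  rw [h] at h'
  exact_mod_cast h'

theorem hasOrder_unique {E : WeierstrassCurve K} {U : Set ℂ} {k k' : ℤ} (h : HasOrder E U k)
    (h' : HasOrder E U k') : k = k' := by
  obtain ⟨⟨Λ, hΛ⟩, h1⟩ := h
  have h2 := h1 Λ hΛ
  rw [h'.2 Λ hΛ] at h2
  exact (WithTop.coe_injective h2).symm

theorem hasDefect_unique {E : WeierstrassCurve K} {U : Set ℂ} {d d' : ℤ} (h : HasDefect E U d)
    (h' : HasDefect E U d') : d = d' := by
  obtain ⟨r, k, h1, h2, rfl⟩ := h
  obtain ⟨r', k', h1', h2', rfl⟩ := h'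
  rw [hasRank_unique h1 h1', hasOrder_unique h2 h2']

end bridge

section main
variable {K : Type} [Field K] [NumberField K] (E : WeierstrassCurve K) (hE : E.IsElliptic)
  {U : Set ℂ} (hU : Region U)
  (hcx : ∀ (F : Type) [Field F] [NumberField F] [Algebra K F], IsEmpty (F →+* ℝ) →
    HasDefect (E.map (algebraMap K F)) U 0)

include hE hU hcx

theorem defect_rel {ι : Type} [Fintype ι] (F : ι → Type) [∀ i, Field (F i)]
    [∀ i, NumberField (F i)] [∀ i, Algebra K (F i)] (n d : ι → ℤ)
    (hn : ∀ φ : K →+* ℝ, ∑ i, n i * (realPlaces (F i) φ : ℤ) = 0)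
    (hd : ∀ i, HasDefect (E.map (algebraMap K (F i))) U (d i)) : ∑ i, n i * d i = 0 := by
  classical
  rcases isEmpty_or_nonempty ι with hι | hι
  · rw [Finset.univ_eq_empty, Finset.sum_empty]
  obtain ⟨L, _, _, _, _, f, m, J, _, M, e, hm, -, hM, hrel⟩ := exists_rel F n hn
  choose r k hr hk hd using hd
  choose rM kM hrM hkM hdM using fun j => hcx (M j) (hM j)
  let Z : ι ⊕ J → Ext K := fun i => match i with
    | Sum.inl i => ⟨F i⟩
    | Sum.inr j => ⟨M j⟩
  let fZ : ∀ i, (Z i).F →ₐ[K] L := fun i => match i with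
    | Sum.inl i => f i
    | Sum.inr j => (M j).val
  let eZ : ι ⊕ J → ℤ := fun i => match i with
    | Sum.inl i => m * n i
    | Sum.inr j => - e j
  let rZ : ι ⊕ J → ℕ := fun i => match i with
    | Sum.inl i => r i
    | Sum.inr j => rM j
  let kZ : ι ⊕ J → ℤ := fun i => match i with
    | Sum.inl i => k i
    | Sum.inr j => kM j
  have hZr : ∀ i, HasRank (E.map (algebraMap K (Z i).F)) (rZ i) := by
    rintro (i | j)
    · exact hr i
    · exact hrM j
  have hZk : ∀ i, HasOrder (E.map (algebraMap K (Z i).F)) U (kZ i) := by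
    rintro (i | j)
    · exact hk i
    · exact hkM j
  have hrelZ : ∀ g : Gal(L/K), ∑ i, eZ i * fx (fZ i).fieldRange.fixingSubgroup g = 0 := by
    intro g
    rw [Fintype.sum_sum_type]
    have h1 : ∑ i, eZ (Sum.inl i) * fx (fZ (Sum.inl i)).fieldRange.fixingSubgroup g =
        m * ∑ i, n i * fx (f i).fieldRange.fixingSubgroup g := by
      rw [Finset.mul_sum]
      refine Finset.sum_congr rfl fun i _ => ?_
      change (m * n i) * _ = _
      rw [mul_assoc]
    have h2 : ∑ j, eZ (Sum.inr j) * fx (fZ (Sum.inr j)).fieldRange.fixingSubgroup g =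
        - ∑ j, e j * fx (M j).fixingSubgroup g := by
      rw [← Finset.sum_neg_distrib]
      refine Finset.sum_congr rfl fun j _ => ?_
      change (- e j) * fx ((M j).val).fieldRange.fixingSubgroup g = _
      rw [IntermediateField.fieldRange_val, neg_mul]
    rw [h1, h2, hrel g, add_neg_cancel]
  obtain ⟨_, -, h3⟩ := rank_rel E (fun i => (Z i).F) fZ eZ 0 hrelZ rZ hZr
  rw [zero_mul] at h3
  choose hex hall using hZk
  choose Λ hΛ using hex
  have hΛ' := fun i => (isContinuation_iff _ _ _).1 (hΛ i)
  choose VZ hVZ hL using fun i => (hΛ' i).2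
  have h4 := ord_rel0 hU.1 hU.2.1 hU.2.2 Z fZ eZ hrelZ E hE VZ hVZ (fun i => (hΛ' i).1) hL kZ
    fun i => hall i _ (hΛ i)
  have h5 : ∑ i, eZ i * (kZ i - rZ i) = 0 := by
    simp only [mul_sub]
    rw [Finset.sum_sub_distrib, h4, ← h3, sub_zero]
  rw [Fintype.sum_sum_type] at h5
  have h6 : ∑ j, eZ (Sum.inr j) * (kZ (Sum.inr j) - rZ (Sum.inr j)) = 0 := by
    refine Finset.sum_eq_zero fun j _ => ?_
    change (- e j) * (kM j - rM j) = 0
    rw [hdM j, mul_zero]
  have h7 : ∑ i, eZ (Sum.inl i) * (kZ (Sum.inl i) - rZ (Sum.inl i)) = m * ∑ i, n i * d i := by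
    rw [Finset.mul_sum]
    refine Finset.sum_congr rfl fun i _ => ?_
    change (m * n i) * (k i - r i) = _
    rw [hd i, mul_assoc]
  rw [h6, h7, add_zero] at h5
  exact (mul_eq_zero.1 h5).resolve_left (by exact_mod_cast hm)

/-- the defect exists if the L-function continues -/
theorem exists_defect (F : Type) [Field F] [NumberField F] [Algebra K F]
    (hc : ∃ Λ, IsContinuation (E.map (algebraMap K F)) U Λ) :
    ∃ d, HasDefect (E.map (algebraMap K F)) U d := by
  classical
  obtain ⟨L, _, _, _, _, f, m, J, _, M, e, hm, hL, -⟩ := exists_rel (K := K)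
    (fun _ : Unit => F) (fun _ => 0) (by simp)
  obtain ⟨rL, -, hrL, -, -⟩ := hcx L hL
  obtain ⟨Λ, hΛ⟩ := hc
  have hE' : (E.map (algebraMap K F)).IsElliptic := inferInstance
  obtain ⟨k, hk⟩ := hasOrder_of hE' hU hΛ
  have h1 : Module.rank ℤ (Pt E F) ≤ Module.rank ℤ (Pt E L) :=
    LinearMap.rank_le_of_injective (mp E (f ())).toIntLinearMap (mp_inj E (f ()))
  have h2 : Module.rank ℤ (Pt E F) < Cardinal.aleph0 := by
    refine lt_of_le_of_lt h1 ?_
    have h3 : Module.rank ℤ (Pt E L) = rL := hrL
    rw [h3]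
    exact Cardinal.natCast_lt_aleph0
  obtain ⟨r, hr⟩ := Cardinal.lt_aleph0.1 h2
  exact ⟨k - r, r, k, hr, hk, rfl⟩

/-- all real places of `K` have `t` real places of `F` above them -/
theorem defect_const {d₀ : ℤ} (h₀ : HasDefect E U d₀) (F : Type) [Field F] [NumberField F]
    [Algebra K F] (t : ℕ) (ht : ∀ φ : K →+* ℝ, realPlaces F φ = t)
    (hc : ∃ Λ, IsContinuation (E.map (algebraMap K F)) U Λ) :
    HasDefect (E.map (algebraMap K F)) U (t * d₀) := by
  obtain ⟨d, hd⟩ := exists_defect E hE hU hcx F hc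
  let X : Bool → Ext K := fun b => match b with
    | true => ⟨F⟩
    | false => Ext.self K
  have hEK : E.map (algebraMap K (Ext.self K).F) = E := E.map_id
  have h1 := defect_rel E hE hU hcx (fun b => (X b).F) (fun b => if b then 1 else - t)
    (fun b => if b then d else d₀) (by
      intro φ
      rw [Fintype.sum_bool]
      have h2 : realPlaces (X true).F φ = t := ht φ
      have h3 : realPlaces (X false).F φ = 1 := by
        change Nat.card {τ : K →+* ℝ // τ.comp (algebraMap K K) = φ} = 1
        rw [Nat.card_eq_one_iff_unique]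
        exact ⟨⟨fun a b => Subtype.ext (a.2.trans b.2.symm)⟩, ⟨⟨φ, rfl⟩⟩⟩
      rw [h2, h3]
      simp) (by
      rintro (_ | _)
      · change HasDefect (E.map (algebraMap K (Ext.self K).F)) U d₀
        rw [hEK]
        exact h₀
      · exact hd)
  rw [Fintype.sum_bool] at h1
  simp only [if_true, Bool.false_eq_true, if_false, one_mul] at h1
  have h2 : d = t * d₀ := by linarith
  rw [← h2]
  exact hd

end main

theorem sameParity_iff {K : Type} [Field K] [NumberField K] {E : WeierstrassCurve K} {U : Set ℂ}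
    {d : ℤ} (hd : HasDefect E U d) : SameParity E U ↔ Even d := by
  obtain ⟨r, k, hr, hk, rfl⟩ := hd
  constructor
  · rintro ⟨r', k', hr', hk', h⟩
    rw [← hasRank_unique hr hr', ← hasOrder_unique hk hk'] at h
    exact even_iff_two_dvd.2 ((Int.modEq_iff_dvd.1 h.symm))
  · intro h
    exact ⟨r, k, hr, hk, (Int.modEq_iff_dvd.2 (even_iff_two_dvd.1 h)).symm⟩

/-- the number of real places -/
theorem card_real (F : Type) [Field F] [NumberField F] :
    (Nat.card (F →+* ℝ) : ℤ) ≡ Module.finrank ℚ F [ZMOD 2] := by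
  classical
  have h1 := NumberField.InfinitePlace.card_add_two_mul_card_eq_rank F
  have h2 := NumberField.InfinitePlace.card_real_embeddings F
  have h3 : Nat.card (F →+* ℝ) = NumberField.InfinitePlace.nrRealPlaces F := by
    rw [← h2, ← Nat.card_eq_fintype_card]
    refine Nat.card_congr
      { toFun := fun τ => ⟨Complex.ofRealHom.comp τ, by
          rw [NumberField.ComplexEmbedding.isReal_iff]
          ext x
          exact Complex.conj_ofReal _⟩
        invFun := fun φ => NumberField.ComplexEmbedding.IsReal.embedding φ.2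
        left_inv := fun τ => ?_
        right_inv := fun φ => ?_ }
    · ext x
      apply Complex.ofReal_injective
      rw [NumberField.ComplexEmbedding.IsReal.coe_embedding_apply]
      rfl
    · apply Subtype.ext
      ext x
      change ((NumberField.ComplexEmbedding.IsReal.embedding φ.2 x : ℝ) : ℂ) = φ.1 x
      rw [NumberField.ComplexEmbedding.IsReal.coe_embedding_apply]
  rw [h3, ← h1]
  push_cast
  exact (Int.modEq_iff_dvd.2 ⟨NumberField.InfinitePlace.nrComplexPlaces F, by ring⟩)

end Aux

/-- **The defect is a linear function of the real places.** -/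
theorem result :
    -- any base field
    (∀ (K : Type) [Field K] [NumberField K] (E : WeierstrassCurve K), E.IsElliptic →
      ∀ U : Set ℂ, Region U →
      (∀ (F : Type) [Field F] [NumberField F] [Algebra K F], IsEmpty (F →+* ℝ) →
        HasDefect (E.map (algebraMap K F)) U 0) →
      (∀ (F : Type) [Field F] [NumberField F] [Algebra K F],
        (∃ Λ, IsContinuation (E.map (algebraMap K F)) U Λ) →
          ∃! d, HasDefect (E.map (algebraMap K F)) U d) ∧
      (∀ (ι : Type) [Fintype ι] (F : ι → Type) [∀ i, Field (F i)] [∀ i, NumberField (F i)]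
        [∀ i, Algebra K (F i)] (n d : ι → ℤ),
        (∀ φ : K →+* ℝ, ∑ i, n i * (realPlaces (F i) φ : ℤ) = 0) →
        (∀ i, HasDefect (E.map (algebraMap K (F i))) U (d i)) → ∑ i, n i * d i = 0) ∧
      (∀ (d₀ : ℤ), HasDefect E U d₀ → ∀ (F : Type) [Field F] [NumberField F] [Algebra K F]
        (t : ℕ), (∀ φ : K →+* ℝ, realPlaces F φ = t) →
        (∃ Λ, IsContinuation (E.map (algebraMap K F)) U Λ) →
          HasDefect (E.map (algebraMap K F)) U (t * d₀))) ∧
    -- the rational numbers
    (∀ E : WeierstrassCurve ℚ, E.IsElliptic → ∀ U : Set ℂ, Region U →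
      (∀ (F : Type) [Field F] [NumberField F], IsEmpty (F →+* ℝ) →
        HasDefect (E.map (algebraMap ℚ F)) U 0) →
      ∀ (d₀ : ℤ), HasDefect E U d₀ →
      ∀ (F : Type) [Field F] [NumberField F],
        (∃ Λ, IsContinuation (E.map (algebraMap ℚ F)) U Λ) →
        HasDefect (E.map (algebraMap ℚ F)) U (Nat.card (F →+* ℝ) * d₀) ∧
        (Even (Module.finrank ℚ F) → SameParity (E.map (algebraMap ℚ F)) U) ∧
        (Odd (Module.finrank ℚ F) →
          (SameParity (E.map (algebraMap ℚ F)) U ↔ SameParity E U))) := by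
  refine ⟨fun K _ _ E hE U hU hcx => ⟨fun F _ _ _ hc => ?_, fun ι _ F _ _ _ n d hn hd =>
    defect_rel E hE hU hcx F n d hn hd, fun d₀ h₀ F _ _ _ t ht hc =>
    defect_const E hE hU hcx h₀ F t ht hc⟩, fun E hE U hU hcx d₀ h₀ F _ _ hc => ?_⟩
  · obtain ⟨d, hd⟩ := exists_defect E hE hU hcx F hc
    exact ⟨d, hd, fun d' hd' => hasDefect_unique hd' hd⟩
  · have h1 : HasDefect (E.map (algebraMap ℚ F)) U (Nat.card (F →+* ℝ) * d₀) := by
      have hcx' : ∀ (F : Type) [Field F] [NumberField F] [Algebra ℚ F], IsEmpty (F →+* ℝ) →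
          HasDefect (E.map (algebraMap ℚ F)) U 0 := by
        intro F _ _ i h
        have e : i = DivisionRing.toRatAlgebra := Subsingleton.elim _ _
        subst e
        exact hcx F h
      refine defect_const E hE hU hcx' h₀ F (Nat.card (F →+* ℝ)) (fun φ => ?_) hc
      unfold realPlaces
      exact Nat.card_congr
        { toFun := fun τ => τ.1
          invFun := fun τ => ⟨τ, Subsingleton.elim _ _⟩
          left_inv := fun τ => rfl
          right_inv := fun τ => rfl }
    have h2 := card_real F
    refine ⟨h1, fun he => ?_, fun ho => ?_⟩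
    · rw [sameParity_iff h1]
      refine Even.mul_right ?_ _
      rw [Int.even_iff]
      rw [Int.ModEq] at h2
      rw [h2]
      have h3 : ((Module.finrank ℚ F : ℕ) : ℤ) % 2 = 0 := by
        rw [← Int.even_iff]
        exact_mod_cast he
      exact h3
    · rw [sameParity_iff h1, sameParity_iff h₀]
      have h3 : Odd (Nat.card (F →+* ℝ) : ℤ) := by
        rw [Int.odd_iff]
        rw [Int.ModEq] at h2
        rw [h2, ← Int.odd_iff]
        exact_mod_cast ho
      rw [Int.even_mul]
      constructor
      · rintro (h4 | h4)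
        · exact absurd h4 (Int.not_even_iff_odd.2 h3)
        · exact h4
      · exact fun h4 => Or.inr h4

end Pool.Agent.Results.MP_413b36_nt.RealPlaceDefect
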